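import Pool.Agent.U44.Gen

/-!
Computable relations with a function dominating them computable in the 1-generic set have a
computable bound; locally finite 2-colourable graphs with a computable bound of the neighbours have
computable colourings with 4 colours.
-/

set_option autoImplicit false

namespace Pool.Agent.U44.Gen

open Encodable Pool.Agent.Helper446 Pool.Agent.Helper446.RE Pool.Agent.Helper446.Defs
  Pool.Agent.Helper446.Oracle

/-- the string `τ` agrees with the finite information `c` -/
def OkS (τ : List Bool) (c : List ℕ × List ℕ) : Prop :=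
  (∀ a ∈ c.1, τ[a]? = some true) ∧ ∀ a ∈ c.2, τ[a]? = some false

theorem re_okS {α : Type*} [Primcodable α] {τ : α → List Bool} {c : α → List ℕ × List ℕ}
    (hτ : Computable τ) (hc : Computable c) : REPred fun x => OkS (τ x) (c x) := by
  refine RE.and ?_ ?_
  · exact RE.all_mem (p := fun x a => (τ x)[a]? = some true)
      (RE.eq (by fun_prop) (by fun_prop)) (by fun_prop)
  · exact RE.all_mem (p := fun x a => (τ x)[a]? = some false)
      (RE.eq (by fun_prop) (by fun_prop)) (by fun_prop)

theorem ok_of_okS {n : ℕ} {c : List ℕ × List ℕ} (h : OkS (seg G n) c) : Ok A c := by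
  constructor
  · intro a ha
    have := h.1 a ha
    rw [seg_get] at this
    split_ifs at this
    exact Option.some.inj this
  · intro a ha
    have := h.2 a ha
    rw [seg_get] at this
    split_ifs at this
    have h2 := Option.some.inj this
    show ¬ G a = true
    rw [h2]
    simp

theorem okS_of_ok {c : List ℕ × List ℕ} (h : Ok A c) (n0 : ℕ) : ∃ n, n0 ≤ n ∧ OkS (seg G n) c := by
  have key : ∀ l : List ℕ, ∃ n, n0 ≤ n ∧ ∀ a ∈ l, a < n := by
    intro l
    induction l with
    | nil => exact ⟨n0, le_rfl, by simp⟩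
    | cons b l ih =>
      obtain ⟨n, h1, h2⟩ := ih
      refine ⟨max n (b + 1), le_trans h1 (le_max_left _ _), fun a ha => ?_⟩
      rcases List.mem_cons.1 ha with rfl | ha
      · exact lt_of_lt_of_le (Nat.lt_succ_self _) (le_max_right _ _)
      · exact lt_of_lt_of_le (h2 a ha) (le_max_left _ _)
  obtain ⟨n, h1, h2⟩ := key (c.1 ++ c.2)
  refine ⟨n, h1, fun a ha => ?_, fun a ha => ?_⟩
  · rw [seg_get, if_pos (h2 a (List.mem_append_left _ ha))]
    exact congrArg some (h.1 a ha)
  · rw [seg_get, if_pos (h2 a (List.mem_append_right _ ha))]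
    have h3 : ¬ G a = true := h.2 a ha
    rw [Bool.not_eq_true] at h3
    rw [h3]

theorem bound {R : ℕ → ℕ → Prop} (hR : ComputablePred fun p : ℕ × ℕ => R p.1 p.2) {v : ℕ → ℕ}
    (hv : TuringReducible (fun n => Part.some (v n)) (chi A)) (h : ∀ x y, R x y → y < v x) :
    ∃ m : ℕ → ℕ, Computable m ∧ ∀ x y, R x y → y < m x := by
  obtain ⟨P, hP, hPv⟩ := turingReducible_fun_iff.1 hv
  have hW : REPred fun τ : List Bool => ∃ z : (ℕ × ℕ) × (List ℕ × List ℕ), ∃ y : ℕ,
      P z.1 z.2 ∧ OkS τ z.2 ∧ R z.1.1 y ∧ z.1.2 ≤ y := by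
    refine RE.ex (p := fun (τ : List Bool) (z : (ℕ × ℕ) × (List ℕ × List ℕ)) => ∃ y : ℕ,
      P z.1 z.2 ∧ OkS τ z.2 ∧ R z.1.1 y ∧ z.1.2 ≤ y) ?_
    refine RE.ex (p := fun (x : List Bool × ((ℕ × ℕ) × (List ℕ × List ℕ))) (y : ℕ) =>
      P x.2.1 x.2.2 ∧ OkS x.1 x.2.2 ∧ R x.2.1.1 y ∧ x.2.1.2 ≤ y) ?_
    refine RE.and ?_ (RE.and ?_ (RE.and ?_ ?_))
    · exact RE.comp hP (f := fun x : (List Bool × ((ℕ × ℕ) × (List ℕ × List ℕ))) × ℕ => x.1.2)
        (by fun_prop)
    · exact re_okS (by fun_prop) (by fun_prop)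
    · exact RE.comp hR.to_re (f := fun x : (List Bool × ((ℕ × ℕ) × (List ℕ × List ℕ))) × ℕ =>
        (x.1.2.1.1, x.2)) (by fun_prop)
    · exact RE.le (by fun_prop) (by fun_prop)
  rcases generic hW with ⟨n, z, y, h1, h2, h3, h4⟩ | ⟨n0, hn0⟩
  · exfalso
    have h5 : v z.1.1 = z.1.2 := (hPv z.1).2 ⟨z.2, h1, ok_of_okS h2⟩
    have h6 := h _ _ h3
    omega
  · have hr : REPred fun x : ℕ × (ℕ × (List ℕ × List ℕ) × List Bool) =>
        P (x.1, x.2.1) x.2.2.1 ∧ OkS x.2.2.2 x.2.2.1 ∧ ∃ ρ : List Bool,
          seg G n0 ++ ρ = x.2.2.2 := by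
      refine RE.and ?_ (RE.and ?_ ?_)
      · exact RE.comp hP (f := fun x : ℕ × (ℕ × (List ℕ × List ℕ) × List Bool) =>
          ((x.1, x.2.1), x.2.2.1)) (by fun_prop)
      · exact re_okS (by fun_prop) (by fun_prop)
      · refine RE.ex (p := fun (x : ℕ × (ℕ × (List ℕ × List ℕ) × List Bool)) (ρ : List Bool) =>
          seg G n0 ++ ρ = x.2.2.2) ?_
        exact RE.eq (by fun_prop) (by fun_prop)
    obtain ⟨f, hf, hf1, hf2⟩ := RE.uniformize (r := fun (x : ℕ)
      (w : ℕ × (List ℕ × List ℕ) × List Bool) => P (x, w.1) w.2.1 ∧ OkS w.2.2 w.2.1 ∧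
      ∃ ρ : List Bool, seg G n0 ++ ρ = w.2.2) hr
    have hdom : ∀ x, (f x).Dom := by
      intro x
      rw [hf1]
      obtain ⟨c, hc1, hc2⟩ := (hPv (x, v x)).1 rfl
      obtain ⟨n, hn1, hn2⟩ := okS_of_ok hc2 n0
      refine ⟨(v x, c, seg G n), hc1, hn2, (seg G n).drop n0, ?_⟩
      have : seg G n0 = (seg G n).take n0 := by
        apply List.ext_getElem?
        intro i
        rw [List.getElem?_take]
        rw [seg_get, seg_get]
        by_cases hi : i < n0
        · rw [if_pos hi, if_pos hi, if_pos (by omega)]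
        · rw [if_neg hi, if_neg hi]
      rw [this]
      exact List.take_append_drop _ _
    have hmc : Computable fun x => (f x).get (hdom x) :=
      hf.of_eq_tot fun x => Part.get_mem (hdom x)
    refine ⟨fun x => ((f x).get (hdom x)).1, by fun_prop, fun x y hxy => ?_⟩
    obtain ⟨h1, h2, ρ, h3⟩ := hf2 x _ (Part.get_mem (hdom x))
    by_contra hcon
    exact hn0 _ ⟨ρ, h3⟩ ⟨((x, ((f x).get (hdom x)).1), ((f x).get (hdom x)).2.1), y, h1, h2, hxy,
      by simpa using hcon⟩

/-! ### the colouring -/

section colour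

variable (m : ℕ → ℕ)

/-- sum of the values of `m` below `n` -/
def S (n : ℕ) : ℕ := Nat.rec (motive := fun _ => ℕ) 0 (fun k acc => acc + m k) n

/-- the ends of the blocks -/
def blk (i : ℕ) : ℕ := Nat.rec (motive := fun _ => ℕ) 0 (fun _ p => p + 1 + S m p) i

variable {m}

theorem le_S {x n : ℕ} (h : x < n) : m x ≤ S m n := by
  induction n with
  | zero => omega
  | succ n ih =>
    have e : S m (n + 1) = S m n + m n := rfl
    rw [e]
    rcases Nat.lt_succ_iff_lt_or_eq.1 h with h | rfl
    · have := ih h; omega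
    · omega

theorem blk_succ (i : ℕ) : blk m (i + 1) = blk m i + 1 + S m (blk m i) := rfl

theorem blk_mono : StrictMono (blk m) := strictMono_nat_of_lt_succ fun i => by
  rw [blk_succ]; omega

theorem c_S (hm : Computable m) {α : Type*} [Primcodable α] {f : α → ℕ} (hf : Computable f) :
    Computable fun x => S m (f x) := by
  have h : Computable₂ fun (_ : α) (p : ℕ × ℕ) => p.2 + m p.1 := by
    unfold Computable₂
    fun_prop
  exact (Computable.nat_rec hf (Computable.const 0) h).of_eq fun a => rfl

theorem c_blk (hm : Computable m) {α : Type*} [Primcodable α] {f : α → ℕ} (hf : Computable f) :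
    Computable fun x => blk m (f x) := by
  have h1 := c_S hm (f := fun p : α × (ℕ × ℕ) => p.2.2) (by fun_prop)
  have h : Computable₂ fun (_ : α) (p : ℕ × ℕ) => p.2 + 1 + S m p.2 := by
    unfold Computable₂
    fun_prop
  exact (Computable.nat_rec hf (Computable.const 0) h).of_eq fun a => rfl

theorem exists_blk (n : ℕ) : ∃ i, blk m i ≤ n ∧ n < blk m (i + 1) := by
  have h1 : ∃ i, n < blk m i := ⟨n + 1, lt_of_lt_of_le (Nat.lt_succ_self n) (blk_mono.id_le _)⟩
  classical
  obtain ⟨i, hi⟩ : ∃ i, Nat.find h1 = i + 1 := by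
    rcases h : Nat.find h1 with _ | i
    · have h2 := Nat.find_spec h1
      rw [h] at h2
      have h3 : blk m 0 = 0 := rfl
      omega
    · exact ⟨i, rfl⟩
  refine ⟨i, ?_, ?_⟩
  · have := Nat.find_min h1 (m := i) (by omega)
    omega
  · rw [← hi]
    exact Nat.find_spec h1

theorem blk_unique {n i j : ℕ} (h : blk m i ≤ n ∧ n < blk m (i + 1))
    (h' : blk m j ≤ n ∧ n < blk m (j + 1)) : i = j := by
  rcases lt_trichotomy i j with h1 | h1 | h1
  · have := blk_mono.monotone (a := i + 1) (b := j) h1 (f := blk m)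
    omega
  · exact h1
  · have := blk_mono.monotone (a := j + 1) (b := i) h1 (f := blk m)
    omega

theorem colour {Γ : SimpleGraph ℕ} (hΓ : ComputablePred fun p : ℕ × ℕ => Γ.Adj p.1 p.2)
    (hm : Computable m) (h : ∀ x y, Γ.Adj x y → y < m x) (h2 : Γ.Colorable 2) :
    ∃ c : ℕ → ℕ, Computable c ∧ (∀ x, c x < 4) ∧ ∀ x y, Γ.Adj x y → c x ≠ c y := by
  classical
  -- the block of a number
  choose j hj using exists_blk (m := m)
  have cj : Computable j := by
    apply RE.computable_of_graph
    have h1 : REPred fun x : ℕ × ℕ => blk m x.2 ≤ x.1 ∧ x.1 < blk m (x.2 + 1) :=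
      RE.and (RE.le (c_blk hm (by fun_prop)) (by fun_prop))
        (RE.lt (by fun_prop) (c_blk hm (by fun_prop)))
    refine h1.of_eq fun x => ?_
    constructor
    · intro h; exact blk_unique (hj x.1) h
    · intro h; rw [← h]; exact hj x.1
  -- colourings of the blocks
  have hΓ' : REPred fun p : ℕ × ℕ => ¬ Γ.Adj p.1 p.2 := hΓ.not.to_re
  obtain ⟨F, hF, hF1, hF2⟩ := RE.uniformize (r := fun (i : ℕ) (l : List Bool) =>
    ∀ x < blk m (i + 1), ∀ y < blk m (i + 1), x < blk m i ∨ y < blk m i ∨ ¬ Γ.Adj x y ∨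
      (l[x]?).getD false ≠ (l[y]?).getD false) (by
    refine RE.all_lt (p := fun (z : ℕ × List Bool) x =>
      ∀ y < blk m (z.1 + 1), x < blk m z.1 ∨ y < blk m z.1 ∨ ¬ Γ.Adj x y ∨
      (z.2[x]?).getD false ≠ (z.2[y]?).getD false) ?_ (c_blk hm (by fun_prop))
    refine RE.all_lt (p := fun (z : (ℕ × List Bool) × ℕ) y =>
      z.2 < blk m z.1.1 ∨ y < blk m z.1.1 ∨ ¬ Γ.Adj z.2 y ∨
      (z.1.2[z.2]?).getD false ≠ (z.1.2[y]?).getD false) ?_ (c_blk hm (by fun_prop))
    refine RE.or (RE.lt (by fun_prop) (c_blk hm (by fun_prop)))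
      (RE.or (RE.lt (by fun_prop) (c_blk hm (by fun_prop))) (RE.or ?_ (RE.ne ?_ ?_)))
    · exact RE.comp hΓ' (f := fun z : ((ℕ × List Bool) × ℕ) × ℕ => (z.1.2, z.2)) (by fun_prop)
    · exact Primrec.option_getD.to_comp.comp (by fun_prop) (by fun_prop)
    · exact Primrec.option_getD.to_comp.comp (by fun_prop) (by fun_prop))
  have hdom : ∀ i, (F i).Dom := by
    intro i
    rw [hF1]
    obtain ⟨κ⟩ := h2
    refine ⟨(List.range (blk m (i + 1))).map fun x => decide (κ x = 0), fun x hx y hy => ?_⟩
    by_cases hxy : Γ.Adj x y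
    · right; right; right
      rw [List.getElem?_map, List.getElem?_range hx, List.getElem?_map, List.getElem?_range hy]
      have h3 := κ.valid hxy
      simp only [Option.map_some, Option.getD_some, ne_eq, decide_eq_decide]
      intro h4
      apply h3
      have h5 : ∀ a : Fin 2, a = 0 ∨ a = 1 := by decide
      rcases h5 (κ x) with e | e <;> rcases h5 (κ y) with e' | e'
      · rw [e, e']
      · exact absurd (h4.1 e) (by rw [e']; decide)
      · exact absurd (h4.2 e') (by rw [e]; decide)
      · rw [e, e']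
    · right; right; left; exact hxy
  have cF : Computable fun i => (F i).get (hdom i) := hF.of_eq_tot fun i => Part.get_mem (hdom i)
  have cb : Computable fun n => ((((F (j n)).get (hdom (j n)))[n]?).getD false) :=
    Primrec.option_getD.to_comp.comp (Computable.list_getElem?.comp (cF.comp cj) Computable.id)
      (by fun_prop)
  have cmod : Computable fun n => j n % 2 :=
    (Primrec.nat_mod.comp Primrec.id (Primrec.const 2)).to_comp.comp cj
  refine ⟨fun n => (bif ((((F (j n)).get (hdom (j n)))[n]?).getD false) then 1 else 0) +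
    2 * (j n % 2), by fun_prop, fun x => ?_, ?_⟩
  · have : j x % 2 < 2 := Nat.mod_lt _ (by omega)
    show (bif ((((F (j x)).get (hdom (j x)))[x]?).getD false) then 1 else 0) +
      2 * (j x % 2) < 4
    generalize (((F (j x)).get (hdom (j x)))[x]?).getD false = a
    cases a <;> simp only [cond_true, cond_false] <;> omega
  · have key : ∀ x y, x < y → Γ.Adj x y →
        (bif ((((F (j x)).get (hdom (j x)))[x]?).getD false) then 1 else 0) +
          2 * (j x % 2) ≠ (bif ((((F (j y)).get (hdom (j y)))[y]?).getD false) then 1 else 0) +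
          2 * (j y % 2) := by
      intro x y hlt hxy
      have hx := hj x
      have hy := hj y
      have h3 := h x y hxy
      have h4 := le_S (m := m) hx.2
      have h5 := blk_succ (m := m) (j x + 1)
      have h6 : j y ≤ j x + 1 := by
        by_contra hcon
        have := blk_mono.monotone (f := blk m) (a := j x + 1 + 1) (b := j y) (by omega)
        omega
      have h7 : j x ≤ j y := by
        by_contra hcon
        have := blk_mono.monotone (f := blk m) (a := j y + 1) (b := j x) (by omega)
        omega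
      rcases Nat.lt_or_ge (j x) (j y) with h8 | h8
      · have h9 : j y = j x + 1 := by omega
        rw [h9]
        rcases (((F (j x)).get (hdom (j x)))[x]?).getD false with _ | _ <;>
          rcases (((F (j x + 1)).get (hdom (j x + 1)))[y]?).getD false with _ | _ <;>
          simp only [cond_true, cond_false] <;> omega
      · have h9 : j y = j x := by omega
        rw [h9] at hy ⊢
        have h10 := hF2 (j x) _ (Part.get_mem (hdom (j x))) x hx.2 y hy.2
        rcases h10 with h10 | h10 | h10 | h10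
        · omega
        · omega
        · exact absurd hxy h10
        · intro heq
          apply h10
          generalize (((F (j x)).get (hdom (j x)))[x]?).getD false = a at *
          generalize (((F (j x)).get (hdom (j x)))[y]?).getD false = b at *
          cases a <;> cases b <;> simp at *
    intro x y hxy
    rcases lt_trichotomy x y with h1 | h1 | h1
    · exact key x y h1 hxy
    · subst h1; exact absurd hxy (Γ.loopless.irrefl x)
    · exact (key y x h1 hxy.symm).symm

end colour

end Pool.Agent.U44.Gen
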