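import Pool.Agent.Helper446.Oracle

/-!
A 1-generic set computable from the halting problem.
-/

set_option autoImplicit false

namespace Pool.Agent.U44.Gen

open Encodable Pool.Agent.Helper446 Pool.Agent.Helper446.RE Pool.Agent.Helper446.Defs
  Pool.Agent.Helper446.Oracle
open Nat.Partrec (Code)

/-- the halting set -/
def K : Set ℕ := {n | ((Denumerable.ofNat Code n).eval n).Dom}

section
variable {α β : Type*} [Primcodable α] [Primcodable β]

theorem not_re {S : α → Prop} (h : REPred S) : REIn K (fun a => ¬ S a) := by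
  obtain ⟨c, hc⟩ := Nat.Partrec.Code.exists_code.1 h
  have hf : Computable fun a : α => encode (Code.comp c (Code.const (encode a))) := by
    have h1 : Computable fun n : ℕ => Code.const n := Code.primrec_const.to_comp
    have h2 : Computable fun x : Code × Code => Code.comp x.1 x.2 :=
      Code.primrec₂_comp.to_comp
    exact Computable.encode.comp (h2.comp ((Computable.const c).pair
      (h1.comp Computable.encode)))
  refine (REIn.not_mem (A := K) hf).of_eq fun a => not_congr ?_
  show ((Denumerable.ofNat Code _).eval _).Dom ↔ S a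
  rw [Denumerable.ofNat_encode]
  have h3 : ∀ m, Code.eval (Code.comp c (Code.const (encode a))) m = Code.eval c (encode a) := by
    intro m
    simp only [Code.eval, Code.eval_const]
    exact Part.bind_some _ _
  rw [h3, hc]
  simp only [encodek, Part.coe_some, Part.bind_some, Part.map_Dom]
  constructor
  · rintro ⟨h, -⟩; exact h
  · intro h; exact ⟨h, trivial⟩

end

/-- decoding strings -/
def dec (m : ℕ) : List Bool := ((decode m.unpair.1 : Option (List Bool))).getD []

/-- the extension coded by `m` is found in the `e`-th c.e. set -/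
def Q (e : ℕ) (σ : List Bool) (m : ℕ) : Bool := wst (List Bool) e m.unpair.2 (σ ++ dec m)

theorem c_dec {α : Type*} [Primcodable α] {f : α → ℕ} (hf : Computable f) :
    Computable fun x => dec (f x) := by
  unfold dec
  exact Primrec.option_getD.to_comp.comp (by fun_prop) (by fun_prop)

theorem c_Q {α : Type*} [Primcodable α] {e : α → ℕ} {σ : α → List Bool} {m : α → ℕ}
    (he : Computable e) (hσ : Computable σ) (hm : Computable m) :
    Computable fun x => Q (e x) (σ x) (m x) := by
  have h1 := c_dec hm
  exact wst_comp.comp (f := fun p : (ℕ × ℕ) × List Bool => wst (List Bool) p.1.1 p.1.2 p.2)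
    (g := fun x => ((e x, (m x).unpair.2), σ x ++ dec (m x))) (by fun_prop)

open Classical in
/-- the stages -/
noncomputable def stg : ℕ → List Bool
  | 0 => []
  | e + 1 => if h : ∃ m, Q e (stg e) m = true then stg e ++ dec (Nat.find h) ++ [false]
      else stg e ++ [false]

/-- one step -/
def Step (e : ℕ) (σ σ' : List Bool) : Prop :=
  ((¬ ∃ m, Q e σ m = true) ∧ σ' = σ ++ [false]) ∨
    ∃ m, Q e σ m = true ∧ (∀ j < m, Q e σ j = false) ∧ σ' = σ ++ dec m ++ [false]

theorem step_stg (e : ℕ) : Step e (stg e) (stg (e + 1)) := by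
  classical
  rw [stg]
  by_cases h : ∃ m, Q e (stg e) m = true
  · right
    refine ⟨Nat.find h, Nat.find_spec h, fun j hj => ?_, ?_⟩
    · have := Nat.find_min h hj
      simpa using this
    · rw [dif_pos h]
  · left
    exact ⟨h, by rw [dif_neg h]⟩

theorem step_unique {e : ℕ} {σ τ τ' : List Bool} (h : Step e σ τ) (h' : Step e σ τ') :
    τ = τ' := by
  rcases h with ⟨h1, h2⟩ | ⟨m, h1, h2, h3⟩ <;> rcases h' with ⟨h1', h2'⟩ | ⟨m', h1', h2', h3'⟩
  · rw [h2, h2']
  · exact absurd ⟨m', h1'⟩ h1
  · exact absurd ⟨m, h1⟩ h1'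
  · have : m = m' := by
      rcases lt_trichotomy m m' with h | h | h
      · rw [h2' m h] at h1; simp at h1
      · exact h
      · rw [h2 m' h] at h1'; simp at h1'
    subst this
    rw [h3, h3']

theorem step_prefix {e : ℕ} {σ τ : List Bool} (h : Step e σ τ) :
    σ <+: τ ∧ σ.length < τ.length := by
  rcases h with ⟨-, h⟩ | ⟨m, -, -, h⟩
  · subst h; exact ⟨List.prefix_append _ _, by simp⟩
  · subst h
    refine ⟨?_, ?_⟩
    · rw [List.append_assoc]; exact List.prefix_append _ _
    · simp only [List.length_append, List.length_singleton]; omega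

theorem re_step : REIn K fun x : ℕ × List Bool × List Bool => Step x.1 x.2.1 x.2.2 := by
  refine REIn.or (REIn.and ?_ (REIn.of_re (RE.eq (by fun_prop) (by fun_prop)))) (REIn.of_re ?_)
  · refine not_re (S := fun x : ℕ × List Bool × List Bool => ∃ m, Q x.1 x.2.1 m = true) ?_
    refine RE.exN (p := fun (x : ℕ × List Bool × List Bool) m => Q x.1 x.2.1 m = true) ?_
    exact RE.of_bool (c_Q (by fun_prop) (by fun_prop) (by fun_prop))
  · refine RE.exN (p := fun (x : ℕ × List Bool × List Bool) m => Q x.1 x.2.1 m = true ∧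
      (∀ j < m, Q x.1 x.2.1 j = false) ∧ x.2.2 = x.2.1 ++ dec m ++ [false]) ?_
    refine RE.and (RE.of_bool (c_Q (by fun_prop) (by fun_prop) (by fun_prop))) (RE.and ?_ ?_)
    · refine RE.all_lt (p := fun (x : (ℕ × List Bool × List Bool) × ℕ) j =>
        Q x.1.1 x.1.2.1 j = false) ?_ (by fun_prop)
      exact RE.eq (c_Q (by fun_prop) (by fun_prop) (by fun_prop)) (by fun_prop)
    · have h1 : Computable fun x : (ℕ × List Bool × List Bool) × ℕ => dec x.2 :=
        c_dec (by fun_prop)
      exact RE.eq (by fun_prop) (by fun_prop)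

theorem stg_iff (e : ℕ) (σ : List Bool) : stg e = σ ↔ ∃ l : List (List Bool),
    l[0]? = some [] ∧ (∀ i < e, ∃ u : List Bool × List Bool, l[i]? = some u.1 ∧
      l[i + 1]? = some u.2 ∧ Step i u.1 u.2) ∧ l[e]? = some σ := by
  constructor
  · rintro rfl
    refine ⟨(List.range (e + 1)).map stg, ?_, fun i hi => ?_, ?_⟩
    · simp [stg]
    · refine ⟨(stg i, stg (i + 1)), ?_, ?_, step_stg i⟩
      · simp [List.getElem?_range (show i < e + 1 by omega)]
      · simp [List.getElem?_range (show i + 1 < e + 1 by omega)]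
    · simp
  · rintro ⟨l, h0, h1, h2⟩
    have key : ∀ i, i ≤ e → l[i]? = some (stg i) := by
      intro i
      induction i with
      | zero => intro _; rw [h0]; rfl
      | succ i ih =>
        intro hi
        obtain ⟨u, hu1, hu2, hu3⟩ := h1 i (by omega)
        rw [ih (by omega)] at hu1
        have e1 : stg i = u.1 := by simpa using hu1
        rw [← e1] at hu3
        rw [hu2, step_unique hu3 (step_stg i)]
    have := key e le_rfl
    rw [h2] at this
    exact (Option.some.inj this).symm

theorem re_stg : REIn K fun x : ℕ × List Bool => stg x.1 = x.2 := by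
  have h : REIn K fun x : ℕ × List Bool => ∃ l : List (List Bool),
    l[0]? = some [] ∧ (∀ i < x.1, ∃ u : List Bool × List Bool, l[i]? = some u.1 ∧
      l[i + 1]? = some u.2 ∧ Step i u.1 u.2) ∧ l[x.1]? = some x.2 := by
    refine REIn.ex (S := fun (x : ℕ × List Bool) (l : List (List Bool)) =>
      l[0]? = some [] ∧ (∀ i < x.1, ∃ u : List Bool × List Bool, l[i]? = some u.1 ∧
      l[i + 1]? = some u.2 ∧ Step i u.1 u.2) ∧ l[x.1]? = some x.2) ?_
    refine REIn.and (REIn.of_re (RE.eq (by fun_prop) (by fun_prop)))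
      (REIn.and ?_ (REIn.of_re (RE.eq (by fun_prop) (by fun_prop))))
    refine REIn.all_lt (S := fun (x : (ℕ × List Bool) × List (List Bool)) (i : ℕ) =>
      ∃ u : List Bool × List Bool, x.2[i]? = some u.1 ∧
      x.2[i + 1]? = some u.2 ∧ Step i u.1 u.2) ?_ (by fun_prop)
    refine REIn.ex (S := fun (x : ((ℕ × List Bool) × List (List Bool)) × ℕ)
      (u : List Bool × List Bool) => x.1.2[x.2]? = some u.1 ∧
      x.1.2[x.2 + 1]? = some u.2 ∧ Step x.2 u.1 u.2) ?_
    refine REIn.and (REIn.of_re (RE.eq (by fun_prop) (by fun_prop)))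
      (REIn.and (REIn.of_re (RE.eq (by fun_prop) (by fun_prop))) ?_)
    exact re_step.comp (f := fun x : (((ℕ × List Bool) × List (List Bool)) × ℕ) ×
      (List Bool × List Bool) => (x.1.2, x.2.1, x.2.2)) (by fun_prop)
  exact h.of_eq fun x => (stg_iff x.1 x.2).symm

theorem stg_len (e : ℕ) : e ≤ (stg e).length := by
  induction e with
  | zero => simp
  | succ e ih => have := (step_prefix (step_stg e)).2; omega

theorem stg_mono {e e' : ℕ} (h : e ≤ e') : stg e <+: stg e' := by
  induction e' with
  | zero => have : e = 0 := by omega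
            subst this; exact List.prefix_rfl
  | succ n ih =>
    rcases Nat.lt_or_ge n e with h1 | h1
    · have : e = n + 1 := by omega
      subst this; exact List.prefix_rfl
    · exact (ih h1).trans (step_prefix (step_stg n)).1

/-- the generic set -/
noncomputable def G (n : ℕ) : Bool := ((stg (n + 1))[n]?).getD false

theorem getElem?_of_prefix {σ τ : List Bool} (h : σ <+: τ) {n : ℕ} (hn : n < σ.length) :
    τ[n]? = σ[n]? := by
  obtain ⟨ρ, rfl⟩ := h
  exact List.getElem?_append_left hn

theorem stg_get {e n : ℕ} (h : n < (stg e).length) : (stg e)[n]? = some (G n) := by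
  have h1 : (stg (n + 1))[n]? = some (G n) := by
    have h2 : n < (stg (n + 1)).length := stg_len (n + 1)
    unfold G
    rw [List.getElem?_eq_getElem h2]
    rfl
  rcases le_total e (n + 1) with h3 | h3
  · rw [← getElem?_of_prefix (stg_mono h3) h, h1]
  · rw [getElem?_of_prefix (stg_mono h3) (stg_len (n + 1)), h1]

theorem seg_get (x : ℕ → Bool) (n i : ℕ) : (seg x n)[i]? = if i < n then some (x i) else none := by
  unfold seg
  by_cases h : i < n <;> simp [h]

theorem seg_len (x : ℕ → Bool) (n : ℕ) : (seg x n).length = n := by simp [seg]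

theorem seg_stg (e : ℕ) : seg G (stg e).length = stg e := by
  apply List.ext_getElem?
  intro i
  rw [seg_get]
  by_cases h : i < (stg e).length
  · rw [if_pos h, stg_get h]
  · rw [if_neg h, List.getElem?_eq_none (by omega)]

theorem seg_of_prefix {σ : List Bool} {e : ℕ} (h : σ <+: stg e) : seg G σ.length = σ := by
  apply List.ext_getElem?
  intro i
  rw [seg_get]
  by_cases h1 : i < σ.length
  · rw [if_pos h1, ← getElem?_of_prefix h h1, stg_get (lt_of_lt_of_le h1 h.length_le)]
  · rw [if_neg h1, List.getElem?_eq_none (by omega)]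

/-- `G` is 1-generic. -/
theorem generic {W : List Bool → Prop} (hW : REPred W) :
    (∃ n, W (seg G n)) ∨ ∃ n, ∀ τ, seg G n <+: τ → ¬ W τ := by
  obtain ⟨e, he⟩ := wst_univ hW
  rcases step_stg e with ⟨h1, h2⟩ | ⟨m, h1, h2, h3⟩
  · right
    refine ⟨(stg e).length, fun τ hτ hWτ => h1 ?_⟩
    rw [seg_stg] at hτ
    obtain ⟨ρ, rfl⟩ := hτ
    obtain ⟨s, hs⟩ := (he _).1 hWτ
    refine ⟨Nat.pair (encode ρ) s, ?_⟩
    unfold Q dec
    simpa using hs
  · left
    refine ⟨(stg e ++ dec m).length, ?_⟩
    rw [seg_of_prefix (e := e + 1) (by rw [h3]; exact List.prefix_append _ _)]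
    exact (he _).2 ⟨_, h1⟩

/-- the set -/
def A : Set ℕ := {n | G n = true}

theorem re_G (b : Bool) : REIn K fun n : ℕ => G n = b := by
  have h : REIn K fun n : ℕ => ∃ σ : List Bool, stg (n + 1) = σ ∧ σ[n]? = some b := by
    refine REIn.ex (S := fun (n : ℕ) (σ : List Bool) => stg (n + 1) = σ ∧ σ[n]? = some b) ?_
    refine REIn.and ?_ (REIn.of_re (RE.eq (by fun_prop) (by fun_prop)))
    exact re_stg.comp (f := fun x : ℕ × List Bool => (x.1 + 1, x.2)) (by fun_prop)
  refine h.of_eq fun n => ?_
  constructor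
  · rintro ⟨_, rfl, h⟩
    rw [stg_get (stg_len (n + 1))] at h
    exact Option.some.inj h
  · intro h
    exact ⟨_, rfl, by rw [stg_get (stg_len (n + 1)), h]⟩

theorem A_le : TuringReducible (chi A) (chi K) := by
  rw [turingReducible_iff]
  exact ⟨re_G true, (re_G false).of_eq fun n => by show G n = false ↔ ¬ G n = true; simp⟩

theorem A_not_computable : ¬ ComputablePred fun n : ℕ => n ∈ A := by
  intro h
  have h1 : Computable G := by
    obtain ⟨hd, hc⟩ := h
    refine hc.of_eq fun n => ?_
    by_cases hG : G n = true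
    · rw [hG]
      exact decide_eq_true hG
    · rw [Bool.not_eq_true] at hG
      rw [hG]
      refine decide_eq_false ?_
      show ¬ G n = true
      rw [hG]
      simp
  have hW : REPred fun σ : List Bool => ∃ n, ∃ b, σ[n]? = some b ∧ G n ≠ b := by
    refine RE.ex (p := fun (σ : List Bool) (n : ℕ) => ∃ b, σ[n]? = some b ∧ G n ≠ b) ?_
    refine RE.ex (p := fun (x : List Bool × ℕ) (b : Bool) => x.1[x.2]? = some b ∧ G x.2 ≠ b) ?_
    exact RE.and (RE.eq (by fun_prop) (by fun_prop)) (RE.ne (by fun_prop) (by fun_prop))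
  rcases generic hW with ⟨n, m, b, h2, h3⟩ | ⟨n, hn⟩
  · rw [seg_get] at h2
    split_ifs at h2 with h4
    exact h3 (Option.some.inj h2)
  · refine hn (seg G n ++ [!(G n)]) (List.prefix_append _ _) ⟨n, !(G n), ?_, by simp⟩
    rw [List.getElem?_append_right (by rw [seg_len]), seg_len]
    simp

end Pool.Agent.U44.Gen
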